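import Pool.Agent.Q264.ColEval

/-!
# Coloured `p`-ary partitions with `(p - 1)(u p ^ s - 1)` colours: the expected valuations fail for `p = 13`, `u = 5`
-/

set_option autoImplicit false

namespace Pool.Agent.Results.MP_7b566e_nt.Disproof

open PowerSeries

/-- The power series `1 / (1 - x ^ j)` with natural number coefficients. -/
def geo (j : ℕ) : PowerSeries ℕ := PowerSeries.mk fun n => if j ∣ n then 1 else 0

/-- `A m k n` is the coefficient of `x ^ n` in `∏_{i ≥ 0} (1 - x ^ (m ^ i)) ^ (-k)`; the factors with `i > n` have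
`m ^ i > n` and do not influence this coefficient. -/
noncomputable def A (m k n : ℕ) : ℕ := coeff n (∏ i ∈ Finset.range (n + 1), geo (m ^ i) ^ k)

/-- Part (i) of the question for `p`, `u`, `s`. -/
def PartOne (p u s : ℕ) : Prop :=
  ∀ n : ℕ, u * p ^ s ≤ n → padicValNat p (A p ((p - 1) * (u * p ^ s - 1)) n) = 1 ∨
    padicValNat p (A p ((p - 1) * (u * p ^ s - 1)) n) = 2

/-- Part (ii) of the question for `p`, `u`, `s`. -/
def PartTwo (p u s : ℕ) : Prop :=
  ∀ n : ℕ, 1 ≤ n → ∀ i j : ℕ, i < p → j < p →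
    padicValNat p (A p ((p - 1) * (u * p ^ s - 1)) (p * n + i)) =
      padicValNat p (A p ((p - 1) * (u * p ^ s - 1)) (p * n + j))

theorem eval {n : ℕ} (hn : n < 13 ^ 3) : A 13 768 n = Q264.ColPart.af 13 767 3 n :=
  Q264.ColPart.A_eval 13 767 3 n (by norm_num) hn

instance : Fact (Nat.Prime 13) := ⟨by norm_num⟩

theorem val_221 : padicValNat 13 (A 13 768 221) = 4 := by
  rw [eval (by norm_num)]
  have h1 : 13 ^ 4 ∣ Q264.ColPart.af 13 767 3 221 := by decide +kernel
  have h2 : ¬ 13 ^ 5 ∣ Q264.ColPart.af 13 767 3 221 := by decide +kernel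
  have h0 : Q264.ColPart.af 13 767 3 221 ≠ 0 := by
    intro h; rw [h] at h2; exact h2 (dvd_zero _)
  rw [padicValNat_dvd_iff_le h0] at h1 h2
  omega

theorem val_222 : padicValNat 13 (A 13 768 222) = 3 := by
  rw [eval (by norm_num)]
  have h1 : 13 ^ 3 ∣ Q264.ColPart.af 13 767 3 222 := by decide +kernel
  have h2 : ¬ 13 ^ 4 ∣ Q264.ColPart.af 13 767 3 222 := by decide +kernel
  have h0 : Q264.ColPart.af 13 767 3 222 ≠ 0 := by
    intro h; rw [h] at h2; exact h2 (dvd_zero _)
  rw [padicValNat_dvd_iff_le h0] at h1 h2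
  omega

/-- Both parts fail for `p = 13`, `u = 5`, `s = 1`, that is `k = 768`: the exponents of `13` in `A 13 768 221` and
`A 13 768 222` are `4` and `3`. -/
theorem result :
    padicValNat 13 (A 13 768 221) = 4 ∧ padicValNat 13 (A 13 768 222) = 3 ∧
    ¬ PartOne 13 5 1 ∧ ¬ PartTwo 13 5 1 ∧
    ¬ (∀ p : ℕ, p.Prime → 3 ≤ p → ∀ u : ℕ, 2 ≤ u → u ≤ p - 1 → ∀ s : ℕ, 1 ≤ s → PartOne p u s ∧ PartTwo p u s) := by
  have h1 : ¬ PartOne 13 5 1 := by
    intro h
    have h2 := h 221 (by norm_num)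
    rw [show (13 - 1) * (5 * 13 ^ 1 - 1) = 768 by norm_num, val_221] at h2
    omega
  have h2 : ¬ PartTwo 13 5 1 := by
    intro h
    have h2 := h 17 (by norm_num) 0 1 (by norm_num) (by norm_num)
    rw [show (13 - 1) * (5 * 13 ^ 1 - 1) = 768 by norm_num, show 13 * 17 + 0 = 221 by norm_num,
      show 13 * 17 + 1 = 222 by norm_num, val_221, val_222] at h2
    omega
  exact ⟨val_221, val_222, h1, h2, fun h => h1 (h 13 (by norm_num) (by norm_num) 5 (by norm_num) (by norm_num) 1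
    le_rfl).1⟩

end Pool.Agent.Results.MP_7b566e_nt.Disproof
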